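import Pool.Agent.V5helper92.WC.Defs

/-!
# Schemes which are built from a given class of schemes
-/

set_option autoImplicit false

open CategoryTheory AlgebraicGeometry MvPolynomial Pool.Agent.Y116.UV Pool.Agent.Z125.UN
  Pool.Agent.V5helper77.GW Pool.Agent.V5helper52.SF Pool.Agent.V5helper94.SV TensorProduct

namespace Pool.Agent.V5helper92.WC

/-- The smallest class of polynomials over the field `k` with the following properties, for a class `P`
of schemes over `k` and a number `d`.

* `good`: a polynomial `f`, homogeneous of degree `e ≠ 0` for some integer weights of the variables, is in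
  the class if the hypersurface `f = 1` is in `P`;
* `lin`: the polynomial `∑ x_j g_j(y)` is in the class if the scheme `g_1(y) = ⋯ = g_N(y) = 0` is in `P`;
* `tri`: the trilinear forms `∑ T_ijl x_i y_j z_l` with a block of at most `d + 2` variables are in the
  class;
* `iso`: the class is stable under isomorphisms of polynomial rings over `k` (for example under
  linear changes of the variables);
* `comp`: if `f_1, …, f_m`, `m ≤ d + 1`, are in the class and involve disjoint sets of variables, and
  `Q` is a polynomial in `m` variables which is homogeneous of degree `e ≠ 0` for some integer weights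
  of the variables, then `Q(f_1, …, f_m)` is in the class;
* `quad`: if `f_1, …, f_m`, `m ≤ d`, are in the class and involve disjoint sets of variables, and
  `Q(x_1, …, x_N, u_1, …, u_m)` is a polynomial which is of degree at most two in the variables
  `x_1, …, x_N` and homogeneous of degree `e ≠ 0` for some integer weights of the variables, then
  `Q(x_1, …, x_N, f_1, …, f_m)` is in the class. -/
inductive SepFrom (k : Type) [Field k] (d : ℕ) (P : Sch k → Prop) :
    {τ : Type} → MvPolynomial τ k → Prop
  | good {τ : Type} (hτ : Finite τ) (f : MvPolynomial τ k) (w : τ → ℤ) (e : ℤ) (he : e ≠ 0)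
      (hf : IsWeightedHomogeneous w f e)
      (h : P (aff k (MvPolynomial τ k ⧸ Ideal.span {f - 1}))) : SepFrom k d P f
  | lin {N : ℕ} {σ : Type} (hσ : Finite σ) (g : Fin N → MvPolynomial σ k)
      (h : P (aff k (MvPolynomial σ k ⧸ Ideal.span (Set.range g)))) : SepFrom k d P (lin g)
  | tri {a b c : ℕ} (T : Fin a → Fin b → Fin c → k) (h : a ≤ d + 2 ∨ b ≤ d + 2 ∨ c ≤ d + 2) :
      SepFrom k d P (tri T)
  | iso {τ σ : Type} (hσ : Finite σ) (f : MvPolynomial τ k)
      (e : MvPolynomial τ k ≃ₐ[k] MvPolynomial σ k) (hf : SepFrom k d P f) : SepFrom k d P (e f)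
  | comp {m : ℕ} (hm : m ≤ d + 1) {τ : Fin m → Type} (f : ∀ i, MvPolynomial (τ i) k)
      (Q : MvPolynomial (Fin m) k) (a : Fin m → ℤ) (e : ℤ) (he : e ≠ 0)
      (hQ : IsWeightedHomogeneous a Q e) (hf : ∀ i, SepFrom k d P (f i)) :
      SepFrom k d P (aeval (fam f) Q)
  | quad {N m : ℕ} (hm : m ≤ d) {τ : Fin m → Type} (f : ∀ i, MvPolynomial (τ i) k)
      (Q : MvPolynomial (Fin N ⊕ Fin m) k) (a : Fin N ⊕ Fin m → ℤ) (e : ℤ) (he : e ≠ 0)
      (hQ : IsWeightedHomogeneous a Q e) (h2 : ∀ s ∈ Q.support, ∑ j, s (Sum.inl j) ≤ 2)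
      (hf : ∀ i, SepFrom k d P (f i)) :
      SepFrom k d P (aeval (Sum.elim (fun j => X (Sum.inl j)) (fun i => rename Sum.inr (fam f i)) :
        Fin N ⊕ Fin m → MvPolynomial (Fin N ⊕ Σ i, τ i) k) Q)

/-- The preimages `F⁻¹(Z)` of the closed subschemes `Z` of dimension at most `d` of the affine space
`𝔸^m`, `F = f_1 × ⋯ × f_m` with `f_i` in the class `SepFrom k d P`, are in `P`, and so are their complements
in the affine space. -/
def SepPreimages (k : Type) [Field k] (d : ℕ) (P : Sch k → Prop) : Prop :=
  ∀ (m : ℕ) (τ : Fin m → Type) (f : ∀ i, MvPolynomial (τ i) k), (∀ i, SepFrom k d P (f i)) →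
    ∀ I : Ideal (MvPolynomial (Fin m) k), ringKrullDim (MvPolynomial (Fin m) k ⧸ I) ≤ d →
      P (aff k (MvPolynomial (Σ i, τ i) k ⧸ pre (fam f) I)) ∧
      ∀ U : Sch k, IsComplement (pre (fam f) I) U → P U

/-- The schemes `system f q b` over `Spec B` are in `P`, for `f_i` in the class `SepFrom k d P`, `B` of
finite type over `k` and of dimension at most `s ≤ d`, and `r` polynomials `q_j` of degree at most two,
`s + r ≤ d + 1`. -/
def SepSystems (k : Type) [Field k] (d : ℕ) (P : Sch k → Prop) : Prop :=
  ∀ (m : ℕ) (τ : Fin m → Type) (f : ∀ i, MvPolynomial (τ i) k), (∀ i, SepFrom k d P (f i)) →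
    ∀ (N r s : ℕ), s ≤ d → s + r ≤ d + 1 → ∀ (B : Type) [CommRing B] [Algebra k B]
      [Algebra.FiniteType k B], ringKrullDim B ≤ s → ∀ q : Fin r → MvPolynomial (Fin N) B,
      (∀ j, (q j).totalDegree ≤ 2) → ∀ b : Fin m → B, P (system f q b)

section

variable {k : Type} [Field k] {d : ℕ} {S : Sch k → Prop}

lemma builtFrom_dim {A : Type} [CommRing A] [Algebra k A] [Algebra.FiniteType k A]
    (hA : ringKrullDim A ≤ d) : BuiltFrom k d S (aff k A) := by
  refine .dim (ft_aff True) ?_
  rw [topDim_aff]
  exact hA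

lemma builtFrom_space (n : ℕ) : BuiltFrom k d S (aff k (MvPolynomial (Fin n) k)) := by
  have h1 : BuiltFrom k d S (aff k k) := builtFrom_dim (by
    rw [ringKrullDim_eq_zero_of_field]
    exact_mod_cast Nat.zero_le d)
  have h2 := BuiltFrom.bundle k (n + 1) (f1 k n) (aff k k) ⟨𝟙 _, inferInstance, range_id n⟩ h1
  exact .iso (ft_aff True) ⟨(affIso (jouOne k n)).symm⟩ h2

/-- The closure properties `Cls`. -/
theorem cls_builtFrom (hd : 1 ≤ d) : Cls True (BuiltFrom k d S) where
  iso hX e h := .iso hX e h
  total i j hX ht hZ hU := .total i j hX ht hZ hU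
  opened i j hX ht hZ h := .opened i j hX ht hZ h
  closed i j hX ht h hU := .closed i j hX ht h hU
  space n := builtFrom_space n
  jouanolou A _ _ _ m f U j hj hr h := .jouanolou A m f U ⟨j, hj, hr⟩ h
  torus A _ _ _ h := .torus A h
  bundle A _ _ _ m f U j hj hr h := .bundle A m f U ⟨j, hj, hr⟩ h
  prod A B _ _ _ _ _ _ hA hB := .prod A B hA hB
  free A B _ _ _ _ _ _ _ n hn hb h := .free A B n hn hb h
  curve A _ _ _ hA := builtFrom_dim (hA.trans (by exact_mod_cast hd))

/-- Induction over the schemes which are built from schemes of dimension at most `d` and from `S`. -/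
theorem builtFrom_le {P : Sch k → Prop} (hP : Cls True P)
    (h : ∀ X : Sch k, FT True X → topologicalKrullDim X.left ≤ d → P X)
    (hS : ∀ X : Sch k, S X → P X) {X : Sch k} (hX : BuiltFrom k d S X) : P X := by
  induction hX with
  | dim hX hd => exact h _ hX hd
  | base hX => exact hS _ hX
  | iso hX e _ ih => exact hP.iso hX e ih
  | total i j hX ht _ _ h1 h2 => exact hP.total i j hX ht h1 h2
  | opened i j hX ht _ _ h1 h2 => exact hP.opened i j hX ht h1 h2
  | closed i j hX ht _ _ h1 h2 => exact hP.closed i j hX ht h1 h2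
  | bundle A m f U hU _ ih =>
    obtain ⟨j, hj, hr⟩ := hU
    exact hP.bundle A m f U j hj hr ih
  | jouanolou A m f U hU _ ih =>
    obtain ⟨j, hj, hr⟩ := hU
    exact hP.jouanolou A m f U j hj hr ih
  | torus A _ ih => exact hP.torus A ih
  | prod A B _ _ h1 h2 => exact hP.prod A B h1 h2
  | free A B n hn hb _ ih => exact hP.free A B n hn hb ih

lemma sepFrom_gd {P : Sch k → Prop} (hP : Cls True P)
    (hdim : ∀ (A : Type) [CommRing A] [Algebra k A] [Algebra.FiniteType k A],
      ringKrullDim A ≤ d → P (aff k A))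
    {τ : Type} {f : MvPolynomial τ k} (hf : SepFrom k d P f) : Gd P f := by
  induction hf with
  | good hτ f w e he hf h => exact gd_good hP f w e he hf h
  | lin hσ g h => exact gd_lin hP g h
  | tri T h => exact gd_tri_le hP hdim T h
  | iso hσ f e _ ih => exact gd_auto hσ ih e
  | comp hm f Q a e he hQ _ ih => exact gd_comp_le hP hdim hm ih Q a e he hQ
  | quad hm f Q a e he hQ h2 _ ih => exact gd_quad hP hdim hm f ih Q a e he hQ h2

theorem preimages_of_cls {P : Sch k → Prop} (hP : Cls True P)
    (hdim : ∀ (A : Type) [CommRing A] [Algebra k A] [Algebra.FiniteType k A],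
      ringKrullDim A ≤ d → P (aff k A)) : SepPreimages k d P := by
  intro m τ f hf I hI
  have hg := fun i => sepFrom_gd hP hdim (hf i)
  have hfin := fun i => (hg i).1
  have h1 := preimageD hP hdim hg I hI
  refine ⟨h1, fun U ⟨j, hj, hr⟩ => ?_⟩
  have := Fintype.ofFinite (Σ i, τ i)
  have h4 : P (aff k (MvPolynomial (Σ i, τ i) k)) :=
    p_poly hP.toBnd (Σ i, τ i)
      (iso_alg hP.toUni (MvPolynomial.isEmptyAlgEquiv k (Fin 0)) (hP.space 0))
  exact hP.opened _ j (ft_aff True) (triple_ideal _ U j hj hr) h1 h4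

theorem systems_of_cls {P : Sch k → Prop} (hP : Cls True P)
    (hdim : ∀ (A : Type) [CommRing A] [Algebra k A] [Algebra.FiniteType k A],
      ringKrullDim A ≤ d → P (aff k A)) : SepSystems k d P := by
  intro m τ f hf N r s hs hr B _ _ _ hB q hq b
  exact blocksQ hP hdim hs hr (Fin m) τ f (fun i => sepFrom_gd hP hdim (hf i)) B hB q hq b

/-- The preimages are built from schemes of dimension at most `d` and from `S`. -/
theorem builtFrom_preimages (hd : 1 ≤ d) : SepPreimages k d (BuiltFrom k d S) :=
  preimages_of_cls (cls_builtFrom hd) fun _ _ _ _ hA => builtFrom_dim hA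

/-- The systems are built from schemes of dimension at most `d` and from `S`. -/
theorem builtFrom_systems (hd : 1 ≤ d) : SepSystems k d (BuiltFrom k d S) :=
  systems_of_cls (cls_builtFrom hd) fun _ _ _ _ hA => builtFrom_dim hA

end

end Pool.Agent.V5helper92.WC
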