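import Pool.Agent.V5helper92.WC.Built

/-!
# The weight-monodromy conjecture for schemes which are built from a class of schemes
-/

set_option autoImplicit false

open CategoryTheory CategoryTheory.Limits AlgebraicGeometry MvPolynomial Pool.Agent.Y116.UV
  Pool.Agent.Z125.UN Pool.Agent.V5helper77.GW Pool.Agent.V5helper77.WM Pool.Agent.V5helper52.SF
  Pool.Agent.V5helper94.SV Pool.Agent.V5helper94.WB

namespace Pool.Agent.V5helper92.WC

variable {Ω : Type} [Field Ω] [CharZero Ω]

theorem preimages_built {k : Type} [Field k] {d : ℕ} {S : Sch k → Prop} (hd : 1 ≤ d) :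
    Preimages k d (BuiltFrom k d S) := fun m N f w e hf I hI =>
  builtFrom_preimages hd m (fun i => Fin (N i)) f
    (fun i => .good inferInstance (f i) (w i) (e i) (hf i).1 (hf i).2.1 (hf i).2.2) I hI |>.1

/-- A smooth form is homogeneous of degree `e ≠ 0` for the weights `1`. -/
lemma IsSmoothForm.weighted {F : Type} [Field F] {n : ℕ} {f : MvPolynomial (Fin n) F}
    (h : IsSmoothForm f) : ∃ e : ℤ, e ≠ 0 ∧ IsWeightedHomogeneous (fun _ => (1 : ℤ)) f e := by
  obtain ⟨⟨d, hd, hf⟩, -⟩ := h
  refine ⟨d, by exact_mod_cast hd.ne', ?_⟩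
  intro m hm
  have h1 := hf hm
  rw [Finsupp.weight_apply] at h1 ⊢
  rw [← h1]
  simp [Finsupp.sum]

variable {ℓ : ℕ} {T : Data Ω} {ten : ∀ B : Trait, (T.loc B).C → (T.loc B).C → (T.loc B).C}

theorem cls_pure (hT : IsTheory ℓ T) (hten : IsTensor ℓ T ten)
    (hH : ∀ (k : Type) [Field k] [CharZero k], Hironaka k) (B : Trait) (hB : B.p ≠ ℓ) :
    Cls True ((T.loc B).AllPure B.q) := by
  have h : Cls True (AllPieces (T.loc B).V fun w M => ((T.loc B).real M).IsPure B.q w) :=
    cls_graded (hten.theory B hB) (twistClass (q_ne B) (hT.loc B hB)) (hten.pure B hB)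
      (point_pure (q_ne B) (hT.loc B hB)) (hH B.K) fun X hX hX1 i =>
        hT.surfaces B hB X hX (hX1.trans (by norm_num)) i
  exact h

theorem smProj_iff_builtPure (hT : IsTheory ℓ T) (hten : IsTensor ℓ T ten)
    (hH : ∀ (k : Type) [Field k] [CharZero k], Hironaka k) (B : Trait) (hB : B.p ≠ ℓ) {n : ℕ} :
    (T.loc B).SmProjUpTo B.q n ↔ BuiltPure (T.loc B) B.q n := by
  constructor
  · intro h S hS X hX
    exact builtFrom_le (cls_pure hT hten hH B hB)
      ((local_graded hT hH B hB n).1.mp h) hS hX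
  · intro h X hX hd i
    have hp := hX.proper
    exact h (fun _ => False) (fun _ h => h.elim) X
      (.dim ⟨inferInstance, inferInstance, fun _ => inferInstance⟩ hd) i i

theorem forms_of_builtPure {F : Type} [Field F] {M : Motives F Ω} {q n : ℕ}
    (hn : 1 ≤ n) (h : BuiltPure M q n)
    (hL : ∀ (N : ℕ) (f : MvPolynomial (Fin N) F), IsSmoothForm f →
      M.AllPure q (levelSet f)) : FormsUpTo M q n := by
  intro m N f hf I hI
  have hS : ∀ X : Sch F, (∃ (N : ℕ) (f : MvPolynomial (Fin N) F), IsSmoothForm f ∧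
      X = levelSet f) → M.AllPure q X := by
    rintro X ⟨N, f, hf, rfl⟩
    exact hL N f hf
  have hb := builtFrom_preimages (k := F) (S := fun X => ∃ (N : ℕ) (f : MvPolynomial (Fin N) F),
    IsSmoothForm f ∧ X = levelSet f) hn m
    (fun i => Fin (N i)) f (fun i => by
      obtain ⟨e, he, hw⟩ := (hf i).weighted
      exact .good inferInstance (f i) _ e he hw (.base ⟨N i, f i, hf i, rfl⟩)) I hI
  exact h _ hS _ hb.1

end Pool.Agent.V5helper92.WC
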