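import Pool.Agent.V5helper94.WB.Main
import Mathlib.AlgebraicGeometry.Group.Abelian

/-!
# Schemes which are built from known cases of the weight-monodromy conjecture: definitions
-/

set_option autoImplicit false

open CategoryTheory AlgebraicGeometry MvPolynomial Pool.Agent.Y116.UV Pool.Agent.V5helper77.GW
  Pool.Agent.V5helper77.WM Pool.Agent.V5helper94.SV TensorProduct

namespace Pool.Agent.V5helper92.WC

/-- The schemes over `k` which are built from schemes of dimension at most `d` and from the schemes of
the class `S`: the smallest class of schemes over `k` with the following properties.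

* `dim`: it contains the separated schemes of finite type of dimension at most `d`;
* `base`: it contains the class `S`;
* `iso`: it is stable under isomorphisms;
* `total`, `opened`, `closed`: if two of the three schemes `X` (separated, of finite type), a closed
  subscheme of `X`, and its open complement are in the class, then so is the third;
* `bundle`, `jouanolou`: an open subscheme `U = {f ≠ 0}` of `Spec A` is in the class if and only if the
  affine bundle `Spec A[w] / (∑ f_l w_l - 1)` over `U` is;
* `torus`: if `X × 𝔾_m` is in the class, `X` affine, then `X` is in the class;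
* `prod`: products of affine schemes of the class are in the class;
* `free`: if `Y → X` is a finite covering of affine schemes such that the algebra of `Y` is free of
  rank `n > 0` over the algebra of `X`, and if `Y` is in the class, then so is `X`. -/
inductive BuiltFrom (k : Type) [Field k] (d : ℕ) (S : Sch k → Prop) : Sch k → Prop
  | dim {X : Sch k} (hX : FT True X) (hd : topologicalKrullDim X.left ≤ d) : BuiltFrom k d S X
  | base {X : Sch k} (h : S X) : BuiltFrom k d S X
  | iso {X Y : Sch k} (hX : FT True X) (e : Nonempty (X ≅ Y)) (h : BuiltFrom k d S X) :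
      BuiltFrom k d S Y
  | total {Z X U : Sch k} (i : Z ⟶ X) (j : U ⟶ X) (hX : FT True X) (ht : IsTriple i j)
      (hZ : BuiltFrom k d S Z) (hU : BuiltFrom k d S U) : BuiltFrom k d S X
  | opened {Z X U : Sch k} (i : Z ⟶ X) (j : U ⟶ X) (hX : FT True X) (ht : IsTriple i j)
      (hZ : BuiltFrom k d S Z) (h : BuiltFrom k d S X) : BuiltFrom k d S U
  | closed {Z X U : Sch k} (i : Z ⟶ X) (j : U ⟶ X) (hX : FT True X) (ht : IsTriple i j)
      (h : BuiltFrom k d S X) (hU : BuiltFrom k d S U) : BuiltFrom k d S Z
  | bundle (A : Type) [CommRing A] [Algebra k A] [Algebra.FiniteType k A] (m : ℕ)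
      (f : Fin m → A) (U : Sch k) (hU : IsLocus f U) (h : BuiltFrom k d S U) :
      BuiltFrom k d S (jouScheme k f)
  | jouanolou (A : Type) [CommRing A] [Algebra k A] [Algebra.FiniteType k A] (m : ℕ)
      (f : Fin m → A) (U : Sch k) (hU : IsLocus f U) (h : BuiltFrom k d S (jouScheme k f)) :
      BuiltFrom k d S U
  | torus (A : Type) [CommRing A] [Algebra k A] [Algebra.FiniteType k A]
      (h : BuiltFrom k d S (aff k (LaurentPolynomial A))) : BuiltFrom k d S (aff k A)
  | prod (A B : Type) [CommRing A] [Algebra k A] [Algebra.FiniteType k A] [CommRing B]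
      [Algebra k B] [Algebra.FiniteType k B] (hA : BuiltFrom k d S (aff k A))
      (hB : BuiltFrom k d S (aff k B)) : BuiltFrom k d S (aff k (A ⊗[k] B))
  | free (A B : Type) [CommRing A] [Algebra k A] [Algebra.FiniteType k A] [CommRing B]
      [Algebra k B] [Algebra A B] [IsScalarTower k A B] (n : ℕ) (hn : 0 < n)
      (hb : Nonempty (B ≃ₗ[A] (Fin n → A))) (h : BuiltFrom k d S (aff k B)) :
      BuiltFrom k d S (aff k A)

section

variable {k : Type} [Field k]

/-- `f` is a smooth form: it is homogeneous of positive degree, and its partial derivatives have no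
common zero except the origin over an algebraic closure of `k`. -/
def IsSmoothForm {n : ℕ} (f : MvPolynomial (Fin n) k) : Prop :=
  (∃ d : ℕ, 0 < d ∧ f.IsHomogeneous d) ∧
    ∀ x : Fin n → AlgebraicClosure k, (∀ i, aeval x (pderiv i f) = 0) → x = 0

/-- The common zeros of the polynomials `f_j` in `ℙ^N`. -/
def zeros {N c : ℕ} (f : Fin c → MvPolynomial (Fin (N + 1)) k) :
    Set (ProjectiveSpectrum (homog k N)) :=
  {x | ∀ j, f j ∈ x.asHomogeneousIdeal}

/-- `X` is a smooth projective variety which is a set-theoretic complete intersection in a projective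
space: for a closed immersion of `X` into some `ℙ^N` the image is the set of the common zeros of
`c = N - dim X` homogeneous polynomials. -/
def IsSetCI (X : Sch k) : Prop :=
  IsSmProj X ∧ ∃ (N c : ℕ) (i : X ⟶ PP k N) (f : Fin c → MvPolynomial (Fin (N + 1)) k),
    IsClosedImmersion i.left ∧ topologicalKrullDim X.left + c = N ∧
      (∀ j, ∃ d, f j ∈ homog k N d) ∧ Set.range i.left = zeros f

/-- The exponents of lowest weight of the Laurent polynomial `f`, for the weights `w` of the variables. -/
noncomputable def face {n : ℕ} (f : AddMonoidAlgebra k (Fin n → ℤ)) (w : Fin n → ℤ) :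
    Finset (Fin n → ℤ) := by
  classical
  exact f.coeff.support.filter fun m => ∀ m' ∈ f.coeff.support, ∑ i, w i * m i ≤ ∑ i, w i * m' i

/-- The Laurent polynomials `f_1, …, f_r` in `n` variables are nondegenerate with respect to their Newton
polytopes (Khovanskii): for all weights `w` of the variables the parts of lowest weight of the `f_j` define
a smooth complete intersection of codimension `r` in the torus (which may be empty): at their common
zeros `x` in the torus over an algebraic closure the vectors of the derivatives `x_i ∂/∂x_i`, `i ≤ n`, of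
these parts are linearly independent. -/
def IsNondegenerate {n r : ℕ} (f : Fin r → AddMonoidAlgebra k (Fin n → ℤ)) : Prop :=
  ∀ (w : Fin n → ℤ) (x : Fin n → AlgebraicClosure k), (∀ i, x i ≠ 0) →
    (∀ j, ∑ m ∈ face (f j) w, algebraMap k (AlgebraicClosure k) ((f j).coeff m) * ∏ i, x i ^ m i = 0) →
    LinearIndependent (AlgebraicClosure k) fun (j : Fin r) (i : Fin n) =>
      ∑ m ∈ face (f j) w,
        algebraMap k (AlgebraicClosure k) ((f j).coeff m) * (m i : AlgebraicClosure k) * ∏ i', x i' ^ m i'

/-- The hypersurface `f = 1`. -/
noncomputable def levelSet {n : ℕ} (f : MvPolynomial (Fin n) k) : Sch k :=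
  aff k (MvPolynomial (Fin n) k ⧸ Ideal.span {f - 1})

/-- The closed subscheme `f_1 = ⋯ = f_r = 0` of the torus. -/
noncomputable def torusSet {n r : ℕ} (f : Fin r → AddMonoidAlgebra k (Fin n → ℤ)) : Sch k :=
  aff k (AddMonoidAlgebra k (Fin n → ℤ) ⧸ Ideal.span (Set.range f))

end

/-- `X` has good reduction: it is the generic fibre of a smooth proper scheme `Y` over `O`. -/
def HasGoodReduction (B : Trait) (X : Sch B.K) : Prop :=
  ∃ (Y : Sch B.O) (g : X.left ⟶ Y.left), Smooth Y.hom ∧ IsProper Y.hom ∧
    IsPullback g X.hom Y.hom (Spec.map (CommRingCat.ofHom (algebraMap B.O B.K)))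

/-- The schemes over the local field `K` for which mw purity of all `Gr^W_w H^i_c(X_{K̄})` is known:

* `good`: schemes with good reduction (Deligne);
* `abelian`: abelian varieties (Grothendieck, SGA 7);
* `intersection`: smooth projective set-theoretic complete intersections in projective spaces (Scholze);
* `level`: the hypersurfaces `f = 1`, `f` a smooth form (the complement in the smooth projective
  hypersurface `f = x_0^d` of the smooth projective hypersurface `f = 0`; Scholze);
* `torus`: the complete intersections in tori which are nondegenerate with respect to their Newton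
  polytopes (they are the complements of divisors with strict normal crossings in smooth complete
  intersections in smooth projective toric varieties, and the strata of these divisors are of this kind
  too; Scholze). -/
inductive Known (B : Trait) : Sch B.K → Prop
  | good {X : Sch B.K} (h : HasGoodReduction B X) : Known B X
  | abelian {X : Sch B.K} (h : IsSmProj X) (hg : Nonempty (GrpObj X)) : Known B X
  | intersection {X : Sch B.K} (h : IsSetCI X) : Known B X
  | level {n : ℕ} (f : MvPolynomial (Fin n) B.K) (h : IsSmoothForm f) : Known B (levelSet f)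
  | torus {n r : ℕ} (f : Fin r → AddMonoidAlgebra B.K (Fin n → ℤ)) (h : IsNondegenerate f) :
      Known B (torusSet f)

/-- The known cases: all `Gr^W_w H^i_c(X_{K̄})` are mw pure of weight `w` if `X` is in the class `Known`. -/
def KnownCases {Ω : Type} [Field Ω] [CharZero Ω] (ℓ : ℕ) (T : Data Ω) : Prop :=
  ∀ B : Trait, B.p ≠ ℓ → ∀ X : Sch B.K, Known B X → (T.loc B).AllPure B.q X

section

variable {k : Type} [Field k]

/-- The closed subscheme `F⁻¹(Z)` of an affine space, where `Z` is the closed subscheme of `𝔸^m` with the
ideal `I`, and `F = f_1 × ⋯ × f_m`, where the `f_i` are polynomials in disjoint sets of variables. -/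
noncomputable def preimage {m : ℕ} {N : Fin m → ℕ} (f : ∀ i, MvPolynomial (Fin (N i)) k)
    (I : Ideal (MvPolynomial (Fin m) k)) : Sch k :=
  aff k (MvPolynomial (Σ i, Fin (N i)) k ⧸ I.map (aeval (R := k) fun i => rename (Sigma.mk i) (f i)))

/-- The class `P` of schemes over `k` is closed under preimages of schemes of dimension at most `d`: it
contains `F⁻¹(Z)` for all closed subschemes `Z` of dimension at most `d` of affine spaces `𝔸^m` and all
maps `F = f_1 × ⋯ × f_m`, where the `f_i` are polynomials in disjoint sets of variables, `f_i` is
homogeneous of degree `e_i ≠ 0` for some integer weights of its variables, and the hypersurface `f_i = 1`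
is in `P`. -/
def Preimages (k : Type) [Field k] (d : ℕ) (P : Sch k → Prop) : Prop :=
  ∀ (m : ℕ) (N : Fin m → ℕ) (f : ∀ i, MvPolynomial (Fin (N i)) k) (w : ∀ i, Fin (N i) → ℤ)
    (e : Fin m → ℤ), (∀ i, e i ≠ 0 ∧ IsWeightedHomogeneous (w i) (f i) (e i) ∧
      P (levelSet (f i))) →
    ∀ I : Ideal (MvPolynomial (Fin m) k), ringKrullDim (MvPolynomial (Fin m) k ⧸ I) ≤ d →
      P (preimage f I)

end

section

variable {Ω : Type} [Field Ω] [CharZero Ω]

/-- If all `Gr^W_w H^i_c(X_{K̄})` are mw pure of weight `w` for all `X` in some class `S` of schemes over `F`,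
then also for all schemes `X` over `F` which are built from schemes of dimension at most `n` and from
`S`. -/
def BuiltPure {F : Type} [Field F] (T : Motives F Ω) (q n : ℕ) : Prop :=
  ∀ S : Sch F → Prop, (∀ X, S X → T.AllPure q X) → ∀ X : Sch F, BuiltFrom F n S X → T.AllPure q X

/-- All `Gr^W_w H^i_c(X_{K̄})` are mw pure of weight `w`, for the preimages `X = F⁻¹(Z)`: `Z` is a closed
subscheme of the affine space `𝔸^m` of dimension at most `n`, and `F = f_1 × ⋯ × f_m`, where the `f_i` are
smooth forms in disjoint sets of variables. -/
def FormsUpTo {F : Type} [Field F] (T : Motives F Ω) (q n : ℕ) : Prop :=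
  ∀ (m : ℕ) (N : Fin m → ℕ) (f : ∀ i, MvPolynomial (Fin (N i)) F), (∀ i, IsSmoothForm (f i)) →
    ∀ I : Ideal (MvPolynomial (Fin m) F), ringKrullDim (MvPolynomial (Fin m) F ⧸ I) ≤ n →
      T.AllPure q (preimage f I)

/-- All `Gr^W_w H^i_c(X_{K̄})` are mw pure of weight `w`, for all schemes `X` over `K` which are built from
schemes of dimension at most two and from the class `Known`. -/
def KnownPure (T : Data Ω) (B : Trait) : Prop :=
  ∀ X : Sch B.K, BuiltFrom B.K 2 (Known B) X → (T.loc B).AllPure B.q X

end

end Pool.Agent.V5helper92.WC
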