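import Pool.Agent.V5helper92.WC.Built
import Pool.Agent.V5helper77.GS.Main
import Pool.Agent.V5helper94.SV.Wt

/-!
# Semisimplicity of Galois representations and schemes which are built from known cases: definitions
-/

set_option autoImplicit false

open CategoryTheory CategoryTheory.Limits AlgebraicGeometry MvPolynomial Pool.Agent.Y116.UV
  Pool.Agent.V5helper77.GW Pool.Agent.V5helper77.GS Pool.Agent.V5helper94.SV

namespace Pool.Agent.V5helper92.WC

/-- The motives which come from schemes of dimension at most `d` and from the class `S` of schemes: the
smallest class of motives which contains the unit motive, the motives `V i i Y = H^i(Y)` of the smooth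
projective varieties `Y` of dimension at most `d`, and the motives `V w n X = Gr^W_w H^n_c(X)` of the
schemes `X` in `S`, and which is closed under direct summands, direct sums, tensor products, and Tate
twists. For `d = 1` and empty `S` these are the motives of abelian type. -/
inductive TypeFrom {k : Type} [Field k] {C : Type 1} [Category.{0} C] [Abelian C]
    (V : ℤ → ℤ → Sch k → C) (tw : ℤ → C → C) (ten : C → C → C) (d : ℕ) (S : Sch k → Prop) :
    C → Prop
  | point : TypeFrom V tw ten d S (V 0 0 (aff k k))
  | variety {X : Sch k} (hX : IsSmProj X) (hd : topologicalKrullDim X.left ≤ d) (i : ℤ) :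
      TypeFrom V tw ten d S (V i i X)
  | base {X : Sch k} (hX : S X) (w n : ℤ) : TypeFrom V tw ten d S (V w n X)
  | zero {M : C} (h : IsZero M) : TypeFrom V tw ten d S M
  | retract {M N : C} (i : M ⟶ N) (r : N ⟶ M) (h : i ≫ r = 𝟙 M) (hN : TypeFrom V tw ten d S N) :
      TypeFrom V tw ten d S M
  | sum {M N : C} (hM : TypeFrom V tw ten d S M) (hN : TypeFrom V tw ten d S N) :
      TypeFrom V tw ten d S (M ⊞ N)
  | twist {M : C} (r : ℤ) (hM : TypeFrom V tw ten d S M) : TypeFrom V tw ten d S (tw r M)
  | untwist {M : C} (r : ℤ) (hM : TypeFrom V tw ten d S (tw r M)) : TypeFrom V tw ten d S M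
  | tensor {M N : C} (hM : TypeFrom V tw ten d S M) (hN : TypeFrom V tw ten d S N) :
      TypeFrom V tw ten d S (ten M N)

section

variable {k : Type} [Field k] {Ω : Type} [Field Ω]

/-- All motives `Gr^W_w H^n_c(X)` come from schemes of dimension at most `d` and from `S`. -/
def ComesFrom (T : Motives k Ω) (ten : T.C → T.C → T.C) (d : ℕ) (S : Sch k → Prop)
    (X : Sch k) : Prop :=
  ∀ w n : ℤ, TypeFrom T.V T.tw ten d S (T.V w n X)

/-- The tensor product of two motives with semisimple realizations has a semisimple realization. This is
a theorem of Chevalley: the realization of the tensor product is the tensor product of the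
realizations, which are finite dimensional, over the field `ℚ_ℓ` of characteristic zero. -/
def Chevalley (T : Motives k Ω) (ten : T.C → T.C → T.C) : Prop :=
  ∀ M N : T.C, T.Semisimple M → T.Semisimple N → T.Semisimple (ten M N)

/-- `X` is a smooth projective variety, embedded in a projective space `ℙ^N` as the set of the zeros of a
smooth form of degree `e` in `N + 1` variables. -/
def IsHypersurface (e N : ℕ) (X : Sch k) : Prop :=
  IsSmProj X ∧ ∃ (i : X ⟶ PP k N) (f : Fin 1 → MvPolynomial (Fin (N + 1)) k),
    IsClosedImmersion i.left ∧ IsSmoothForm (f 0) ∧ (f 0).IsHomogeneous e ∧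
      Set.range i.left = zeros f

variable (k) in
/-- Schemes over `k` all of whose motives `Gr^W_w H^n_c(X)` are known to be of abelian type, so that the
representations `Gr^W_w H^n_c(X, ℚ_ℓ)` are known to be semisimple if `k` is finitely generated:

* `curve`: schemes of dimension at most one (Faltings);
* `abelian`: abelian varieties (Faltings);
* `cubic`: smooth cubic hypersurfaces of dimension at most five (dimension three and five: Deligne, the
  Hodge level is one; dimension four: the theorem of Kuga and Satake, Deligne, André);
* `quartic`: smooth quartic hypersurfaces of dimension at most three (dimension two: Kuga-Satake;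
  dimension three: Deligne, the Hodge level is one);
* `levelCubic`, `levelQuartic`: the hypersurfaces `f = 1`, `f` a smooth cubic form in at most six
  variables, or a smooth quartic form in at most four variables (they are complements of a smooth
  hypersurface `f = 0` in a smooth hypersurface `f = t^e`). -/
inductive AbelianKnown : Sch k → Prop
  | curve {X : Sch k} (h : FT True X) (hd : topologicalKrullDim X.left ≤ 1) : AbelianKnown X
  | abelian {X : Sch k} (h : IsSmProj X) (hg : Nonempty (GrpObj X)) : AbelianKnown X
  | cubic {X : Sch k} (N : ℕ) (hN : N ≤ 6) (h : IsHypersurface 3 N X) : AbelianKnown X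
  | quartic {X : Sch k} (N : ℕ) (hN : N ≤ 4) (h : IsHypersurface 4 N X) : AbelianKnown X
  | levelCubic {n : ℕ} (hn : n ≤ 6) (f : MvPolynomial (Fin n) k) (h : IsSmoothForm f)
      (h3 : f.IsHomogeneous 3) : AbelianKnown (levelSet f)
  | levelQuartic {n : ℕ} (hn : n ≤ 4) (f : MvPolynomial (Fin n) k) (h : IsSmoothForm f)
      (h4 : f.IsHomogeneous 4) : AbelianKnown (levelSet f)

end

end Pool.Agent.V5helper92.WC
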