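import Pool.Agent.V5helper92.WC.SignDefs
import Pool.Agent.V5helper92.WC.Main

/-!
# Weight complexes of the schemes which are built from a class of schemes
-/

set_option autoImplicit false

open CategoryTheory CategoryTheory.Limits AlgebraicGeometry Pool.Agent.Y116.UV
  Pool.Agent.Z125.UN Pool.Agent.V5helper77.GW Pool.Agent.V5helper48.WC Pool.Agent.V5helper52.SF
  Pool.Agent.V5helper94.SV

namespace Pool.Agent.V5helper92.WC

variable {k : Type} [Field k] {T : ChowData k} {D : TensorData T} {S : T.C → Prop}

/-- The weight complexes of the schemes which are built from schemes of dimension at most `d` and from a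
class `C` of schemes. -/
theorem chow_builtFrom [PerfectField k] (hA : DeJong k) (hT : IsChowTheory IsSmProper T)
    (ht : HasTransfer T) (hD : IsTensorChow D) (hS : IsTwistStable T S)
    (hten : ∀ M N, S M → S N → S (D.ten M N)) {d : ℕ} (hd : 1 ≤ d)
    (h : ∀ X : Sch k, IsSmProper X → topologicalKrullDim X.left ≤ d → S (T.h X))
    {C : Sch k → Prop} (hC : ∀ X, C X → T.Built S X) :
    ∀ X : Sch k, BuiltFrom k d C X → T.Built S X := by
  have hs : ∀ X : Sch k, IsSmProj X → IsSmProper X := fun X hX => .of_smProj hX
  have h2 : ∀ X : Sch k, IsSmProper X → FT True X := fun X hX => hX.ft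
  have h3 := (graded_of hT hS hs h2 d (deJong_devissage hT ht hS hA d)).1.mp h
  intro X hX
  refine builtFrom_le (cls_chow hT hD hS hten fun Y hY hd1 => h3 Y hY ?_) h3 hC hX
  exact hd1.trans (by exact_mod_cast hd)

variable {F : Type} [Field F] {H : Cohomology T F}

/-- The sign conjecture in dimension at most `d`, and for the schemes which are built from schemes of
dimension at most `d` and from any class of schemes which satisfy it. -/
theorem sign_iff [PerfectField k] (hA : DeJong k) (hT : IsChowTheory IsSmProper T)
    (ht : HasTransfer T) (hD : IsTensorChow D) (hH : IsCohomology H) (hK : HasKunneth H D) {d : ℕ}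
    (hd : 1 ≤ d) :
    ((∀ X : Sch k, IsSmProper X → topologicalKrullDim X.left ≤ d → CPlus H (T.h X)) ↔
      SignSmooth H d) ∧
    ((∀ X : Sch k, IsSmProper X → topologicalKrullDim X.left ≤ d → CPlus H (T.h X)) ↔
      SignBuilt H d) := by
  have hS := cPlus_stable hT hH
  have key := fun h (C : Sch k → Prop) (hC : ∀ X, C X → T.Built (CPlus H) X) =>
    chow_builtFrom (S := CPlus H) hA hT ht hD hS (cPlus_ten hK) hd h hC
  refine ⟨⟨fun h C hC X hX hb => ?_, fun h X hX hd1 => ?_⟩,
    ⟨fun h C hC => key h C hC, fun h X hX hd1 => ?_⟩⟩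
  · refine (built_smooth hT hS.toIsSummandClass hX).mp (key h C (fun Y hY => ?_) X hb)
    exact (built_smooth hT hS.toIsSummandClass (hC Y hY).1).mpr (hC Y hY).2
  · exact h (fun _ => False) (fun _ h => h.elim) X hX (.dim hX.ft hd1)
  · exact (built_smooth hT hS.toIsSummandClass hX).mp
      (h (fun _ => False) (fun _ h => h.elim) X (.dim hX.ft hd1))

/-- The schemes which are built from the known cases. -/
theorem sign_known [PerfectField k] (hA : DeJong k) (hT : IsChowTheory IsSmProper T)
    (ht : HasTransfer T) (hD : IsTensorChow D) (hH : IsCohomology H) (hK : HasKunneth H D)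
    (hC : SignCases H) :
    (∀ X : Sch k, BuiltFrom k 2 (SignKnown k) X → T.Built (CPlus H) X) ∧
      ∀ X : Sch k, IsSmProper X → BuiltFrom k 2 (SignKnown k) X → CPlus H (T.h X) := by
  have hS := cPlus_stable hT hH
  have h2 : ∀ X : Sch k, IsSmProper X → topologicalKrullDim X.left ≤ (2 : ℕ) →
      CPlus H (T.h X) := fun X hX hd =>
    (built_smooth hT hS.toIsSummandClass hX).mp (hC X (.dim hX hd))
  have key := ((sign_iff hA hT ht hD hH hK (d := 2) (by norm_num)).2.mp h2) _ hC
  exact ⟨key, fun X hX hb => (built_smooth hT hS.toIsSummandClass hX).mp (key X hb)⟩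

end Pool.Agent.V5helper92.WC
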