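import Pool.Agent.V5helper94.SV.Chow
import Pool.Agent.V5helper92.WC.Defs

/-!
# The sign conjecture for schemes which are built from its known cases: definitions
-/

set_option autoImplicit false

open CategoryTheory AlgebraicGeometry Pool.Agent.Y116.UV Pool.Agent.V5helper77.GW
  Pool.Agent.V5helper48.WC

namespace Pool.Agent.V5helper92.WC

variable {k : Type} [Field k]

/-- Schemes over `k` for which the sign conjecture is known (for the level sets: for the smooth
projective hypersurfaces `f = x_0^d` and `f = 0`, whose difference is the scheme `f = 1`):

* `dim`: smooth proper schemes of dimension at most two;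
* `abelian`: abelian varieties;
* `intersection`: smooth projective set-theoretic complete intersections in projective spaces;
* `level`: the hypersurfaces `f = 1`, `f` a smooth form. -/
inductive SignKnown (k : Type) [Field k] : Sch k → Prop
  | dim {X : Sch k} (h : IsSmProper X) (hd : topologicalKrullDim X.left ≤ 2) : SignKnown k X
  | abelian {X : Sch k} (h : IsSmProj X) (hg : Nonempty (GrpObj X)) : SignKnown k X
  | intersection {X : Sch k} (h : IsSetCI X) : SignKnown k X
  | level {n : ℕ} (f : MvPolynomial (Fin n) k) (h : IsSmoothForm f) : SignKnown k (levelSet f)

/-- The known cases: the weight complexes of the schemes in the class `SignKnown` are built from motives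
which satisfy the sign conjecture. (For a smooth proper scheme `X` this means that `X` satisfies the
sign conjecture.) -/
def SignCases {T : ChowData k} {F : Type} [Field F] (H : Cohomology T F) : Prop :=
  ∀ X : Sch k, SignKnown k X → T.Built (CPlus H) X

/-- If all schemes of the class `S` are smooth and proper and satisfy the sign conjecture, then all smooth
proper schemes which are built from schemes of dimension at most `d` and from `S` satisfy the sign
conjecture. -/
def SignSmooth {T : ChowData k} {F : Type} [Field F] (H : Cohomology T F) (d : ℕ) : Prop :=
  ∀ S : Sch k → Prop, (∀ X, S X → IsSmProper X ∧ CPlus H (T.h X)) →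
    ∀ X : Sch k, IsSmProper X → BuiltFrom k d S X → CPlus H (T.h X)

/-- If the weight complexes of all schemes of the class `S` are built from motives which satisfy the sign
conjecture, then so are the weight complexes of all schemes which are built from schemes of dimension at
most `d` and from `S`. -/
def SignBuilt {T : ChowData k} {F : Type} [Field F] (H : Cohomology T F) (d : ℕ) : Prop :=
  ∀ S : Sch k → Prop, (∀ X, S X → T.Built (CPlus H) X) →
    ∀ X : Sch k, BuiltFrom k d S X → T.Built (CPlus H) X

end Pool.Agent.V5helper92.WC
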